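import Pool.Agent.H255R3.PCG.Main

/-!
# Generalized PCG recognition is NP-hard

Reduction from 3SAT. A pair of leaves in `S` is long (above `d_max`) or short (below `d_min`).
By the four-point condition, a gadget with two disjoint edges and all four cross pairs in `S` has a
long pair; and two pairs all of whose cross pairs are edges are not both long. Every clause
and every variable gets such a gadget of two edges (its long pair names a true literal of the
clause, or a false literal of the variable), and a chain of such gadgets forbids equal choices. For
a satisfiable formula every vertex is given a word of length five and an integer, depending only on
the choices in the gadgets near it (a finite table), and the trie of these words is the tree.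
-/

namespace Pool.Agent.Results.MP_9390ab_lc.GeneralizedHard

open Pool.Agent.NPC Pool.Agent.H255R3.PCG

/-- Generalized PCG recognition is NP-hard under polynomial-time many-one reductions, and every
language in NP has such a reduction to it that produces only well-formed instances. -/
theorem result : NPHardP GeneralizedPCG ∧ Pool.Agent.H673R2.NPHardOn IsInstance GeneralizedPCG :=
  ⟨hard.toNPHardP, hard⟩

end Pool.Agent.Results.MP_9390ab_lc.GeneralizedHard
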